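import Pool.Agent.R825.LmpSpaces

/-!
# MP_6dbda4_lc: span bisimilarity does not imply coalgebraic bisimilarity

For every nonempty set `L` of labels we construct, in ZFC, labelled Markov processes `SS L` and
`SP L` and states of them which are related by a span of zigzag morphisms, although no
`Δ`-bisimulation (coalgebra structure on a relation) contains them.
-/

open MeasureTheory Set ProbabilityTheory
open scoped ENNReal unitInterval

namespace Pool.Agent.Results.MP_6dbda4_lc.SpanNotDelta

open Pool.Agent.R825.Lmp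

/-- A labelled Markov process over the label set `L`: a measurable space, and for every label a
kernel with values in the subprobability measures. -/
structure LMP (L : Type) : Type 1 where
  /-- the state space -/
  carrier : Type
  /-- its σ-algebra -/
  ms : MeasurableSpace carrier
  /-- the transition kernels -/
  tau : L → @Kernel carrier carrier ms ms
  /-- the kernels take values in the subprobability measures -/
  le_one : ∀ (a : L) (s : carrier), tau a s Set.univ ≤ 1

/-- Zigzag morphisms (not required to be surjective). -/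
def IsZigzag {L : Type} (S S' : LMP L) (f : S.carrier → S'.carrier) : Prop :=
  @Measurable _ _ S.ms S'.ms f ∧
    ∀ (a : L) (s : S.carrier) (A : Set S'.carrier), MeasurableSet[S'.ms] A →
      S'.tau a (f s) A = S.tau a s (f ⁻¹' A)

/-- Span bisimilarity. -/
def SpanBisimilar {L : Type} (S S' : LMP L) (s : S.carrier) (s' : S'.carrier) : Prop :=
  ∃ (T : LMP L) (f : T.carrier → S.carrier) (g : T.carrier → S'.carrier),
    IsZigzag T S f ∧ IsZigzag T S' g ∧ ∃ t : T.carrier, f t = s ∧ g t = s'

/-- Coalgebraic bisimilarity: some relation containing the pair carries the structure of a labelled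
Markov process such that both projections are zigzag morphisms. -/
def DeltaBisimilar {L : Type} (S S' : LMP L) (s : S.carrier) (s' : S'.carrier) : Prop :=
  ∃ (R : Set (S.carrier × S'.carrier)) (mR : MeasurableSpace R) (τ : L → @Kernel R R mR mR)
    (hτ : ∀ (a : L) (r : R), τ a r Set.univ ≤ 1),
    IsZigzag (LMP.mk R mR τ hτ) S (fun r : R => r.1.1) ∧
    IsZigzag (LMP.mk R mR τ hτ) S' (fun r : R => r.1.2) ∧
    (s, s') ∈ R

section Build

variable {X Y : Type} [MeasurableSpace X] [MeasurableSpace Y]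

/-- The kernel of a three-level process: from the root, choose a point of `X` according to `l`,
then a point of `Y` according to `k`, and return to the root with probability `h`. -/
noncomputable def fn (l : Measure X) (k : X → Measure Y) (h : Y → ℝ≥0∞) :
    Unit ⊕ (X ⊕ Y) → Measure (Unit ⊕ (X ⊕ Y)) :=
  Sum.elim (fun _ => l.map (Sum.inr ∘ Sum.inl))
    (Sum.elim (fun x => (k x).map (Sum.inr ∘ Sum.inr)) (fun y => h y • Measure.dirac (Sum.inl ())))

lemma measurable_mid : Measurable (Sum.inr ∘ Sum.inl : X → Unit ⊕ (X ⊕ Y)) :=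
  measurable_inr.comp measurable_inl

lemma measurable_leaf : Measurable (Sum.inr ∘ Sum.inr : Y → Unit ⊕ (X ⊕ Y)) :=
  measurable_inr.comp measurable_inr

lemma measurable_fn (l : Measure X) {k : X → Measure Y} (hk : Measurable k) {h : Y → ℝ≥0∞}
    (hh : Measurable h) : Measurable (fn l k h) := by
  refine Measurable.sumElim measurable_const (Measurable.sumElim ?_ ?_)
  · exact (Measure.measurable_map _ measurable_leaf).comp hk
  · refine Measure.measurable_of_measurable_coe _ fun A hA => ?_
    simp only [Measure.smul_apply, smul_eq_mul]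
    exact hh.mul_const _

/-- The three-level process. -/
noncomputable def build (L : Type) (l : Measure X) (k : X → Measure Y) (h : Y → ℝ≥0∞)
    (hk : Measurable k) (hh : Measurable h) (hl1 : l Set.univ ≤ 1) (hk1 : ∀ x, k x Set.univ ≤ 1)
    (hh1 : ∀ y, h y ≤ 1) : LMP L where
  carrier := Unit ⊕ (X ⊕ Y)
  ms := inferInstance
  tau _ := ⟨fn l k h, measurable_fn l hk hh⟩
  le_one := by
    rintro - (_ | x | y)
    · change (l.map (Sum.inr ∘ Sum.inl)) Set.univ ≤ 1
      rw [Measure.map_apply measurable_mid MeasurableSet.univ]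
      exact hl1
    · change ((k x).map (Sum.inr ∘ Sum.inr)) Set.univ ≤ 1
      rw [Measure.map_apply measurable_leaf MeasurableSet.univ]
      exact hk1 x
    · change (h y • Measure.dirac (Sum.inl ())) Set.univ ≤ 1
      simpa using hh1 y

end Build

/-- Morphisms between three-level processes. -/
lemma fn_map {X Y X' Y' : Type} [MeasurableSpace X] [MeasurableSpace Y] [MeasurableSpace X']
    [MeasurableSpace Y'] {l : Measure X} {k : X → Measure Y} {h : Y → ℝ≥0∞}
    {l' : Measure X'} {k' : X' → Measure Y'} {h' : Y' → ℝ≥0∞} {u : X → X'} {v : Y → Y'}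
    (hu : Measurable u) (hv : Measurable v) (hl : l.map u = l')
    (hk : ∀ x, (k x).map v = k' (u x)) (hh : ∀ y, h' (v y) = h y) (s : Unit ⊕ (X ⊕ Y))
    {A : Set (Unit ⊕ (X' ⊕ Y'))} (hA : MeasurableSet A) :
    fn l' k' h' (Sum.map id (Sum.map u v) s) A =
      fn l k h s (Sum.map id (Sum.map u v) ⁻¹' A) := by
  have hF : Measurable (Sum.map id (Sum.map u v) : Unit ⊕ (X ⊕ Y) → Unit ⊕ (X' ⊕ Y')) :=
    measurable_id.sumMap (hu.sumMap hv)
  rcases s with _ | x | y
  · change (l'.map (Sum.inr ∘ Sum.inl)) A = (l.map (Sum.inr ∘ Sum.inl)) _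
    rw [Measure.map_apply measurable_mid hA, Measure.map_apply measurable_mid (hF hA), ← hl,
      Measure.map_apply hu (measurable_mid hA)]
    rfl
  · change ((k' (u x)).map (Sum.inr ∘ Sum.inr)) A = ((k x).map (Sum.inr ∘ Sum.inr)) _
    rw [Measure.map_apply measurable_leaf hA, Measure.map_apply measurable_leaf (hF hA), ← hk,
      Measure.map_apply hv (measurable_leaf hA)]
    rfl
  · change (h' (v y) • Measure.dirac (Sum.inl ())) A = (h y • Measure.dirac (Sum.inl ())) _
    rw [hh, Measure.smul_apply, Measure.smul_apply, Measure.dirac_apply' _ hA,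
      Measure.dirac_apply' _ (hF hA)]
    rfl

/-- The left process. -/
noncomputable def SS (L : Type) : LMP L :=
  build L (mu.map ZZ.fst) alpha (fun q => mass q.p) measurable_alpha measurable_massQ
    (by rw [Measure.map_apply measurable_ZZfst MeasurableSet.univ, Set.preimage_univ, measure_univ])
    (fun w => (alpha_univ w).le) (fun q => mass_le _)

/-- The right process. -/
noncomputable def SP (L : Type) : LMP L :=
  build L (Measure.dirac ()) (fun _ => beta) (fun p => mass p.p) measurable_const measurable_massP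
    (by simp) (fun _ => beta_univ.le) (fun q => mass_le _)

/-- The apex of the span. -/
noncomputable def TT (L : Type) : LMP L :=
  build L mu ee (fun t => mass t.p) measurable_ee measurable_massT
    (by rw [measure_univ]) (fun w => (ee_univ w).le) (fun q => mass_le _)

/-- Left initial state. -/
noncomputable def rootS (L : Type) : (SS L).carrier := (Sum.inl () : Unit ⊕ (Om ⊕ QQ))

/-- Right initial state. -/
noncomputable def rootP (L : Type) : (SP L).carrier := (Sum.inl () : Unit ⊕ (Unit ⊕ PP))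

theorem span (L : Type) : SpanBisimilar (SS L) (SP L) (rootS L) (rootP L) := by
  refine ⟨TT L, (Sum.map id (Sum.map ZZ.fst f3) : Unit ⊕ (ZZ ⊕ T3) → Unit ⊕ (Om ⊕ QQ)),
    (Sum.map id (Sum.map (fun _ => ()) g3) : Unit ⊕ (ZZ ⊕ T3) → Unit ⊕ (Unit ⊕ PP)),
    ⟨?_, ?_⟩, ⟨?_, ?_⟩, (Sum.inl () : Unit ⊕ (ZZ ⊕ T3)), rfl, rfl⟩
  · exact measurable_id.sumMap (measurable_ZZfst.sumMap measurable_f3)
  · intro a s A hA
    exact fn_map measurable_ZZfst measurable_f3 rfl map_f3 (fun _ => rfl) s hA
  · exact measurable_id.sumMap (measurable_const.sumMap measurable_g3)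
  · intro a s A hA
    exact fn_map (l := mu) (l' := Measure.dirac ()) (k' := fun _ => beta) measurable_const
      measurable_g3 (by rw [Measure.map_const, measure_univ, one_smul]) map_g3 (fun _ => rfl) s hA

theorem not_delta (L : Type) (a : L) : ¬ DeltaBisimilar (SS L) (SP L) (rootS L) (rootP L) := by
  classical
  rintro ⟨R, mR, τ, hτ, ⟨hm1, hz1⟩, ⟨hm2, hz2⟩, hmem⟩
  let p1 : R → Unit ⊕ (Om ⊕ QQ) := fun r => r.1.1
  let p2 : R → Unit ⊕ (Unit ⊕ PP) := fun r => r.1.2
  have hp1 : Measurable p1 := hm1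
  have hp2 : Measurable p2 := hm2
  let κ : R → Measure R := fun r => τ a r
  have hκ : Measurable κ := (τ a).measurable
  have h1 : ∀ (r : R) (A : Set (Unit ⊕ (Om ⊕ QQ))), MeasurableSet A →
      fn (mu.map ZZ.fst) alpha (fun q => mass q.p) (p1 r) A = κ r (p1 ⁻¹' A) :=
    fun r A hA => hz1 a r A hA
  have h2 : ∀ (r : R) (A : Set (Unit ⊕ (Unit ⊕ PP))), MeasurableSet A →
      fn (Measure.dirac ()) (fun _ => beta) (fun p => mass p.p) (p2 r) A = κ r (p2 ⁻¹' A) :=
    fun r A hA => hz2 a r A hA
  have hfin : ∀ r, IsFiniteMeasure (κ r) := fun r => ⟨(hτ a r).trans_lt ENNReal.one_lt_top⟩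
  -- pairs of leaves have equal parameters
  have hpar : ∀ (r : R) (q : QQ) (p : PP), p1 r = Sum.inr (Sum.inr q) →
      p2 r = Sum.inr (Sum.inr p) → q.p = p.p := by
    intro r q p hq hp
    have e1 := h1 r Set.univ MeasurableSet.univ
    have e2 := h2 r Set.univ MeasurableSet.univ
    rw [hq] at e1
    rw [hp] at e2
    have e3 : fn (mu.map ZZ.fst) alpha (fun q => mass q.p) (Sum.inr (Sum.inr q)) Set.univ
        = mass q.p := by
      change (mass q.p • Measure.dirac (Sum.inl ())) Set.univ = _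
      simp
    have e4 : fn (Measure.dirac ()) (fun _ => beta) (fun p : PP => mass p.p)
        (Sum.inr (Sum.inr p)) Set.univ = mass p.p := by
      change (mass p.p • Measure.dirac (Sum.inl ())) Set.univ = _
      simp
    rw [e3] at e1
    rw [e4] at e2
    apply mass_inj
    rw [e1, e2]
    rfl
  -- the basic measurable sets
  let E : Set ZZ → Set R := fun A => {r | ∃ q : QQ, p1 r = Sum.inr (Sum.inr q) ∧
    (∃ p : PP, p2 r = Sum.inr (Sum.inr p)) ∧ (⟨q.w, kk q.p⟩ : ZZ) ∈ A}
  have hE : ∀ A, MeasurableSet A → MeasurableSet (E A) := by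
    intro A hA
    let A' : Idx := ⟨A, hA⟩
    have hx : ∀ b : Bool, MeasurableSet {q : QQ | (psi q).2.2 A' = b} := fun b =>
      ((measurable_pi_apply A').comp (measurable_snd.comp (measurable_snd.comp measurable_psi)))
        (measurableSet_singleton b)
    have hy : ∀ b : Bool, MeasurableSet {p : PP | (chi p).2 A' = b} := fun b =>
      ((measurable_pi_apply A').comp (measurable_snd.comp measurable_chi))
        (measurableSet_singleton b)
    have he : E A = ⋃ b : Bool, p1 ⁻¹' (Sum.inr '' (Sum.inr '' {q : QQ | (psi q).2.2 A' = b})) ∩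
        p2 ⁻¹' (Sum.inr '' (Sum.inr '' {p : PP | (chi p).2 A' = b})) := by
      ext r
      simp only [Set.mem_iUnion, Set.mem_inter_iff, Set.mem_preimage]
      constructor
      · rintro ⟨q, hq, ⟨p, hp⟩, hz⟩
        have hqp := hpar r q p hq hp
        refine ⟨yy q.p A', ⟨Sum.inr q, ⟨q, ?_, rfl⟩, hq.symm⟩, ⟨Sum.inr p, ⟨p, ?_, rfl⟩, hp.symm⟩⟩
        · change xor (yy q.p A') (sgn ⟨q.w, kk q.p⟩ A') = yy q.p A'
          have : sgn ⟨q.w, kk q.p⟩ A' = false := by
            simp only [sgn, decide_eq_false_iff_not, not_not]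
            exact hz
          rw [this, Bool.xor_false]
        · change yy p.p A' = yy q.p A'
          rw [hqp]
      · rintro ⟨b, ⟨_, ⟨q, hq, rfl⟩, hq'⟩, ⟨_, ⟨p, hp, rfl⟩, hp'⟩⟩
        have hqp := hpar r q p hq'.symm hp'.symm
        refine ⟨q, hq'.symm, ⟨p, hp'.symm⟩, ?_⟩
        change xor (yy q.p A') (sgn ⟨q.w, kk q.p⟩ A') = b at hq
        change yy p.p A' = b at hp
        rw [← hqp] at hp
        have h3 : sgn ⟨q.w, kk q.p⟩ A' = false := by
          rw [hp] at hq
          cases b <;> simpa using hq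
        simpa only [sgn, decide_eq_false_iff_not, not_not] using h3
    rw [he]
    exact MeasurableSet.iUnion fun b =>
      (hp1 (measurableSet_inr_image.2 (measurableSet_inr_image.2 (hx b)))).inter
        (hp2 (measurableSet_inr_image.2 (measurableSet_inr_image.2 (hy b))))
  have hcol : ∀ w : Om, MeasurableSet
      (Sum.inr '' (Sum.inr '' {q : QQ | q.w = w}) : Set (Unit ⊕ (Om ⊕ QQ))) := fun w =>
    measurableSet_inr_image.2 (measurableSet_inr_image.2 (measurableSet_col w))
  have hcolnull : ∀ (r : R) (w : Om), p1 r = Sum.inr (Sum.inl w) →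
      κ r (p1 ⁻¹' (Sum.inr '' (Sum.inr '' {q : QQ | q.w = w}))ᶜ) = 0 := by
    intro r w hw
    rw [← h1 r _ (hcol w).compl, hw]
    change ((alpha w).map (Sum.inr ∘ Sum.inr)) _ = 0
    rw [Measure.map_apply measurable_leaf (hcol w).compl]
    have : (Sum.inr ∘ Sum.inr : QQ → Unit ⊕ (Om ⊕ QQ)) ⁻¹'
        (Sum.inr '' (Sum.inr '' {q : QQ | q.w = w}))ᶜ = {q | q.w ≠ w} := by
      ext q; simp
    rw [this]
    exact alpha_col w
  have hlf : MeasurableSet (Sum.inr '' (Set.range Sum.inr) : Set (Unit ⊕ (Unit ⊕ PP))) :=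
    measurableSet_inr_image.2 measurableSet_range_inr
  have hleafnull : ∀ r : R, p2 r = Sum.inr (Sum.inl ()) →
      κ r (p2 ⁻¹' (Sum.inr '' (Set.range Sum.inr))ᶜ) = 0 := by
    intro r hw
    rw [← h2 r _ hlf.compl, hw]
    change (beta.map (Sum.inr ∘ Sum.inr)) _ = 0
    rw [Measure.map_apply measurable_leaf hlf.compl]
    have : (Sum.inr ∘ Sum.inr : PP → Unit ⊕ (Unit ⊕ PP)) ⁻¹'
        (Sum.inr '' (Set.range Sum.inr))ᶜ = ∅ := by
      ext q; simp
    rw [this]
    exact measure_empty
  have htot : ∀ (r : R) (w : Om), p1 r = Sum.inr (Sum.inl w) → κ r Set.univ = 1 := by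
    intro r w hw
    have e1 := h1 r Set.univ MeasurableSet.univ
    rw [hw, Set.preimage_univ] at e1
    rw [← e1]
    change ((alpha w).map (Sum.inr ∘ Sum.inr)) _ = 1
    rw [Measure.map_apply measurable_leaf MeasurableSet.univ]
    exact alpha_univ w
  -- a choice of labels
  have hpos : ∀ (r : R) (w : Om), p1 r = Sum.inr (Sum.inl w) → p2 r = Sum.inr (Sum.inl ()) →
      ∃ i, κ r (E {⟨w, i⟩}) ≠ 0 := by
    intro r w hw hw'
    by_contra hcon
    push Not at hcon
    have hfr := hfin r
    have h3 := ulam (κ r) (fun i => E {⟨w, i⟩}) (by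
      intro L'
      have : (⋃ i ∈ L', E {(⟨w, i⟩ : ZZ)}) = E {z | z.fst = w ∧ z.snd ∈ L'} := by
        ext r'
        simp only [Set.mem_iUnion]
        constructor
        · rintro ⟨i, hi, q, hq, hp, hz⟩
          rw [Set.mem_singleton_iff] at hz
          exact ⟨q, hq, hp, by rw [hz]; exact ⟨rfl, hi⟩⟩
        · rintro ⟨q, hq, hp, hz⟩
          refine ⟨kk q.p, hz.2, q, hq, hp, ?_⟩
          rw [Set.mem_singleton_iff, ← show q.w = w from hz.1]
      rw [this]
      exact hE _ (measurableSet_of_small ((small_column w).mono fun z hz => hz.1))) (by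
      intro i j hij
      rw [Set.disjoint_left]
      rintro r' ⟨q, hq, -, hz⟩ ⟨q', hq', -, hz'⟩
      have h4 : q = q' := by
        have := hq.symm.trans hq'
        simpa using this
      subst h4
      rw [Set.mem_singleton_iff] at hz hz'
      apply hij
      have := hz.symm.trans hz'
      simpa using this) hcon
    have hsub : (Set.univ : Set R) ⊆ (⋃ i, E {(⟨w, i⟩ : ZZ)}) ∪
        (p1 ⁻¹' (Sum.inr '' (Sum.inr '' {q : QQ | q.w = w}))ᶜ ∪
          p2 ⁻¹' (Sum.inr '' (Set.range Sum.inr))ᶜ) := by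
      intro r' _
      by_cases c1 : p1 r' ∈ (Sum.inr '' (Sum.inr '' {q : QQ | q.w = w}) : Set (Unit ⊕ (Om ⊕ QQ)))
      · by_cases c2 : p2 r' ∈ (Sum.inr '' (Set.range Sum.inr) : Set (Unit ⊕ (Unit ⊕ PP)))
        · left
          obtain ⟨_, ⟨q, hq, rfl⟩, hq'⟩ := c1
          obtain ⟨_, ⟨p, rfl⟩, hp'⟩ := c2
          refine Set.mem_iUnion.2 ⟨kk q.p, q, hq'.symm, ⟨p, hp'.symm⟩, ?_⟩
          rw [Set.mem_singleton_iff, ← show q.w = w from hq]
        · exact Or.inr (Or.inr c2)
      · exact Or.inr (Or.inl c1)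
    have h5 : κ r Set.univ = 0 := measure_mono_null hsub
      (measure_union_null h3 (measure_union_null (hcolnull r w hw) (hleafnull r hw')))
    rw [htot r w hw] at h5
    exact one_ne_zero h5
  have hchoice : ∃ g : Om → Om, ∀ (r : R) (w : Om), p1 r = Sum.inr (Sum.inl w) →
      p2 r = Sum.inr (Sum.inl ()) → κ r (E {⟨w, g w⟩}) ≠ 0 := by
    have : ∀ w : Om, ∃ i : Om, ∀ (r : R), p1 r = Sum.inr (Sum.inl w) →
        p2 r = Sum.inr (Sum.inl ()) → κ r (E {⟨w, i⟩}) ≠ 0 := by
      intro w
      by_cases hex : ∃ r : R, p1 r = Sum.inr (Sum.inl w) ∧ p2 r = Sum.inr (Sum.inl ())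
      · obtain ⟨r, hr1, hr2⟩ := hex
        obtain ⟨i, hi⟩ := hpos r w hr1 hr2
        refine ⟨i, fun r' hr1' hr2' => ?_⟩
        have : r' = r := Subtype.ext (Prod.ext (hr1'.trans hr1.symm) (hr2'.trans hr2.symm))
        rw [this]
        exact hi
      · exact ⟨default, fun r hr1 hr2 => (hex ⟨r, hr1, hr2⟩).elim⟩
    choose g hg using this
    exact ⟨g, fun r w => hg w r⟩
  obtain ⟨g, hg⟩ := hchoice
  -- all sets of second-level states are measurable
  let N : Set R := p1 ⁻¹' (Sum.inr '' (Set.range Sum.inl)) ∩ p2 ⁻¹' (Sum.inr '' (Set.range Sum.inl))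
  have hm1' : MeasurableSet (Sum.inr '' (Set.range Sum.inl) : Set (Unit ⊕ (Om ⊕ QQ))) :=
    measurableSet_inr_image.2 measurableSet_range_inl
  have hm2' : MeasurableSet (Sum.inr '' (Set.range Sum.inl) : Set (Unit ⊕ (Unit ⊕ PP))) :=
    measurableSet_inr_image.2 measurableSet_range_inl
  have hN : MeasurableSet N := (hp1 hm1').inter (hp2 hm2')
  let G : Om → Set R := fun w => {r | p1 r = Sum.inr (Sum.inl w) ∧ p2 r = Sum.inr (Sum.inl ())}
  have hG : ∀ B : Set Om, MeasurableSet (⋃ w ∈ B, G w) := by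
    intro B
    let A : Set ZZ := {z | z.snd = g z.fst ∧ z.fst ∈ B}
    have hA : MeasurableSet A := measurableSet_of_small ((small_graph g).mono fun z hz => hz.1)
    have he : (⋃ w ∈ B, G w) = {r | κ r (E A) ≠ 0} ∩ N := by
      ext r
      simp only [Set.mem_iUnion, Set.mem_inter_iff]
      constructor
      · rintro ⟨w, hw, hr1, hr2⟩
        refine ⟨?_, ⟨Sum.inl w, ⟨w, rfl⟩, hr1.symm⟩, ⟨Sum.inl (), ⟨(), rfl⟩, hr2.symm⟩⟩
        intro h0
        apply hg r w hr1 hr2
        refine measure_mono_null ?_ h0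
        rintro r' ⟨q, hq, hp, hz⟩
        rw [Set.mem_singleton_iff] at hz
        exact ⟨q, hq, hp, by rw [hz]; exact ⟨rfl, hw⟩⟩
      · rintro ⟨hr, ⟨_, ⟨w, rfl⟩, hr1⟩, ⟨_, ⟨u, rfl⟩, hr2⟩⟩
        refine ⟨w, ?_, hr1.symm, hr2.symm⟩
        by_contra hw
        apply hr
        refine measure_mono_null ?_ (hcolnull r w hr1.symm)
        rintro r' ⟨q, hq, -, hz⟩ ⟨_, ⟨q', hq', rfl⟩, hq''⟩
        have h4 : q' = q := by
          have := hq''.trans hq
          simpa using this
        subst h4
        apply hw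
        have h5 : q'.w ∈ B := hz.2
        rwa [show q'.w = w from hq'] at h5
    rw [he]
    refine MeasurableSet.inter ?_ hN
    have h6 : Measurable fun r => κ r (E A) := (Measure.measurable_coe (hE A hA)).comp hκ
    exact h6 (measurableSet_singleton 0).compl
  -- the transition probability of the pair of roots
  let r0 : R := ⟨(rootS L, rootP L), hmem⟩
  have hr01 : p1 r0 = Sum.inl () := rfl
  have hr02 : p2 r0 = Sum.inl () := rfl
  have hfr := hfin r0
  have h7 := ulam (κ r0) G hG (by
    intro i j hij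
    rw [Set.disjoint_left]
    rintro r ⟨hr, -⟩ ⟨hr', -⟩
    apply hij
    have := hr.symm.trans hr'
    simpa using this) (by
    intro w
    have hsing : MeasurableSet (Sum.inr '' (Sum.inl '' {w}) : Set (Unit ⊕ (Om ⊕ QQ))) :=
      measurableSet_inr_image.2 (measurableSet_inl_image.2
        (Pool.Agent.R825.Lmp.measurableSet_singleton w))
    have h8 : κ r0 (p1 ⁻¹' (Sum.inr '' (Sum.inl '' {w}))) = 0 := by
      rw [← h1 r0 _ hsing, hr01]
      change ((mu.map ZZ.fst).map (Sum.inr ∘ Sum.inl)) _ = 0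
      rw [Measure.map_apply measurable_mid hsing]
      have : (Sum.inr ∘ Sum.inl : Om → Unit ⊕ (Om ⊕ QQ)) ⁻¹' (Sum.inr '' (Sum.inl '' {w}))
          = {w} := by
        ext q; simp
      rw [this, Measure.map_apply measurable_ZZfst
        (Pool.Agent.R825.Lmp.measurableSet_singleton w)]
      exact mu_small (small_column w)
    refine measure_mono_null ?_ h8
    rintro r ⟨hr, -⟩
    exact ⟨Sum.inl w, ⟨w, rfl, rfl⟩, hr.symm⟩)
  have h9 : κ r0 (p1 ⁻¹' (Sum.inr '' (Set.range Sum.inl))ᶜ) = 0 := by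
    rw [← h1 r0 _ hm1'.compl, hr01]
    change ((mu.map ZZ.fst).map (Sum.inr ∘ Sum.inl)) _ = 0
    rw [Measure.map_apply measurable_mid hm1'.compl]
    have : (Sum.inr ∘ Sum.inl : Om → Unit ⊕ (Om ⊕ QQ)) ⁻¹' (Sum.inr '' (Set.range Sum.inl))ᶜ
        = ∅ := by
      ext q; simp
    rw [this]
    exact measure_empty
  have h10 : κ r0 (p2 ⁻¹' (Sum.inr '' (Set.range Sum.inl))ᶜ) = 0 := by
    rw [← h2 r0 _ hm2'.compl, hr02]
    change ((Measure.dirac ()).map (Sum.inr ∘ Sum.inl)) _ = 0
    rw [Measure.map_apply measurable_mid hm2'.compl]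
    have : (Sum.inr ∘ Sum.inl : Unit → Unit ⊕ (Unit ⊕ PP)) ⁻¹' (Sum.inr '' (Set.range Sum.inl))ᶜ
        = ∅ := by
      ext q; simp
    rw [this]
    exact measure_empty
  have h11 : κ r0 Set.univ = 1 := by
    have e1 := h1 r0 Set.univ MeasurableSet.univ
    rw [hr01, Set.preimage_univ] at e1
    rw [← e1]
    change ((mu.map ZZ.fst).map (Sum.inr ∘ Sum.inl)) _ = 1
    rw [Measure.map_apply measurable_mid MeasurableSet.univ, Set.preimage_univ,
      Measure.map_apply measurable_ZZfst MeasurableSet.univ, Set.preimage_univ, measure_univ]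
  have hsub : (Set.univ : Set R) ⊆ (⋃ w, G w) ∪
      (p1 ⁻¹' (Sum.inr '' (Set.range Sum.inl))ᶜ ∪ p2 ⁻¹' (Sum.inr '' (Set.range Sum.inl))ᶜ) := by
    intro r' _
    by_cases c1 : p1 r' ∈ (Sum.inr '' (Set.range Sum.inl) : Set (Unit ⊕ (Om ⊕ QQ)))
    · by_cases c2 : p2 r' ∈ (Sum.inr '' (Set.range Sum.inl) : Set (Unit ⊕ (Unit ⊕ PP)))
      · left
        obtain ⟨_, ⟨w, rfl⟩, hq'⟩ := c1
        obtain ⟨_, ⟨u, rfl⟩, hp'⟩ := c2
        exact Set.mem_iUnion.2 ⟨w, hq'.symm, hp'.symm⟩
      · exact Or.inr (Or.inr c2)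
    · exact Or.inr (Or.inl c1)
  have h12 : κ r0 Set.univ = 0 := measure_mono_null hsub
    (measure_union_null h7 (measure_union_null h9 h10))
  rw [h11] at h12
  exact one_ne_zero h12

/-- **Answer to Q1 (negative).**  Span bisimilarity implies coalgebraic bisimilarity for labelled
Markov processes over `L` if and only if there are no labels at all. -/
theorem result (L : Type) :
    (∀ (S S' : LMP L) (s : S.carrier) (s' : S'.carrier),
      SpanBisimilar S S' s s' → DeltaBisimilar S S' s s') ↔ IsEmpty L := by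
  constructor
  · intro h
    by_contra hL
    rw [not_isEmpty_iff] at hL
    obtain ⟨a⟩ := hL
    exact not_delta L a (h _ _ _ _ (span L))
  · intro hL S S' s s' _
    refine ⟨{(s, s')}, ⊤, fun a => (hL.false a).elim, fun a => (hL.false a).elim,
      ⟨fun _ _ => trivial, fun a => (hL.false a).elim⟩,
      ⟨fun _ _ => trivial, fun a => (hL.false a).elim⟩, rfl⟩

end Pool.Agent.Results.MP_6dbda4_lc.SpanNotDelta
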